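import Pool.Agent.W516.MT.Stmt

/-!
# The commutator with the `ℓ`-th power of a matrix congruent to one
-/

namespace Pool.Agent.W806.MT

open Pool.Agent.W516.MTS Finset

variable {ℓ : ℕ} [Fact ℓ.Prime] {n : ℕ}

/-- All entries are bounded by `r`. -/
def Bd (A : Matrix (Fin n) (Fin n) ℚ_[ℓ]) (r : ℝ) : Prop := ∀ i j, ‖A i j‖ ≤ r

theorem Bd.mul {A C : Matrix (Fin n) (Fin n) ℚ_[ℓ]} {a c : ℝ} (ha : Bd A a) (hc : Bd C c)
    (ha0 : 0 ≤ a) (hc0 : 0 ≤ c) : Bd (A * C) (a * c) := by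
  intro i j
  rw [Matrix.mul_apply]
  refine IsUltrametricDist.norm_sum_le_of_forall_le_of_nonneg (by positivity) fun k _ => ?_
  rw [norm_mul]
  exact mul_le_mul (ha i k) (hc k j) (norm_nonneg _) ha0

theorem Bd.add {A C : Matrix (Fin n) (Fin n) ℚ_[ℓ]} {a : ℝ} (ha : Bd A a) (hc : Bd C a) :
    Bd (A + C) a := by
  intro i j
  rw [Matrix.add_apply]
  exact (IsUltrametricDist.norm_add_le_max _ _).trans (max_le (ha i j) (hc i j))

theorem Bd.pow {A : Matrix (Fin n) (Fin n) ℚ_[ℓ]} {a : ℝ} (ha : Bd A a) (ha0 : 0 ≤ a) (k : ℕ) :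
    Bd (A ^ k) (a ^ k) := by
  induction k with
  | zero =>
    intro i j
    rw [pow_zero, pow_zero, Matrix.one_apply]
    split_ifs <;> simp
  | succ k ih =>
    rw [pow_succ, pow_succ]
    exact ih.mul ha (by positivity) ha0

theorem comm_pow {N P : Matrix (Fin n) (Fin n) ℚ_[ℓ]} {q r : ℝ} (hq : 0 ≤ q) (hr : 0 ≤ r)
    (hN : Bd N q) (hD : Bd (N * P - P * N) r) (k : ℕ) :
    Bd (N ^ (k + 1) * P - P * N ^ (k + 1)) (q ^ k * r) := by
  induction k with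
  | zero => simpa using hD
  | succ k ih =>
    have h1 : N ^ (k + 1 + 1) * P - P * N ^ (k + 1 + 1) =
        N * (N ^ (k + 1) * P - P * N ^ (k + 1)) + (N * P - P * N) * N ^ (k + 1) := by
      rw [pow_succ' N (k + 1), mul_sub, sub_mul]
      simp only [mul_assoc]
      abel
    rw [h1]
    have e1 : q ^ (k + 1) * r = q * (q ^ k * r) := by ring
    refine Bd.add ?_ ?_
    · rw [e1]
      exact hN.mul ih hq (by positivity)
    · rw [mul_comm]
      exact hD.mul (hN.pow hq _) hr (by positivity)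

/-- The `ℓ`-adic norm of a multiple. -/
theorem norm_nsmul_le (m : ℕ) (x : ℚ_[ℓ]) : ‖m • x‖ ≤ ‖x‖ := by
  rw [nsmul_eq_mul, norm_mul]
  have h := Padic.norm_int_le_one (p := ℓ) (m : ℤ)
  rw [Int.cast_natCast] at h
  calc ‖(m : ℚ_[ℓ])‖ * ‖x‖ ≤ 1 * ‖x‖ := mul_le_mul_of_nonneg_right h (norm_nonneg _)
    _ = ‖x‖ := one_mul _

theorem T_PADB : S_PADB := by
  intro ℓ _ n T hT P r hr i j
  by_contra hcon
  rw [not_le] at hcon
  have hℓ : (0 : ℝ) < ℓ := by exact_mod_cast (Fact.out : ℓ.Prime).pos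
  have hℓ1 : (1 : ℝ) < ℓ := by exact_mod_cast (Fact.out : ℓ.Prime).one_lt
  have hr0 : 0 ≤ r := by
    have h := (norm_nonneg _).trans (hr i j)
    by_contra hneg
    rw [not_le] at hneg
    have := mul_neg_of_pos_of_neg (inv_pos.2 hℓ) hneg
    linarith
  set N : Matrix (Fin n) (Fin n) ℚ_[ℓ] := T - 1 with hN
  have hTN : T = N + 1 := by rw [hN]; abel
  set q : ℝ := (ℓ : ℝ) ^ (-2 : ℤ) with hq
  have hq0 : 0 < q := by positivity
  have hq1 : q < (ℓ : ℝ)⁻¹ := by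
    rw [hq, zpow_neg]
    have : (ℓ : ℝ) ^ (2 : ℤ) = ℓ * ℓ := by
      rw [zpow_ofNat]; ring
    rw [this]
    apply inv_strictAnti₀ hℓ
    nlinarith
  have hq1' : q ≤ 1 := hq1.le.trans (inv_le_one_of_one_le₀ hℓ1.le)
  have hNb : Bd N q := hT
  obtain ⟨⟨i₀, j₀⟩, -, hmax⟩ := Finset.exists_max_image (univ : Finset (Fin n × Fin n))
    (fun p => ‖(T * P - P * T) p.1 p.2‖) ⟨(i, j), mem_univ _⟩
  set r₁ : ℝ := ‖(T * P - P * T) i₀ j₀‖ with hr₁
  have hr₁r : r < r₁ := hcon.trans_le (hmax (i, j) (mem_univ _))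
  have hr₁0 : 0 < r₁ := hr0.trans_lt hr₁r
  have hD0 : T * P - P * T = N * P - P * N := by
    rw [hTN]
    simp only [add_mul, mul_add, one_mul, mul_one]
    abel
  have hD : Bd (N * P - P * N) r₁ := by
    intro a b
    rw [← hD0]
    exact hmax (a, b) (mem_univ _)
  have hexp : T ^ ℓ * P - P * T ^ ℓ =
      ∑ m ∈ range (ℓ + 1), (ℓ.choose m) • (N ^ m * P - P * N ^ m) := by
    have h1 : T ^ ℓ = ∑ m ∈ range (ℓ + 1), (ℓ.choose m) • N ^ m := by
      rw [hTN, (Commute.one_right N).add_pow]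
      refine Finset.sum_congr rfl fun m _ => ?_
      rw [one_pow, mul_one, nsmul_eq_mul, (Nat.cast_commute _ _).eq]
    rw [h1, Finset.sum_mul, Finset.mul_sum, ← Finset.sum_sub_distrib]
    refine Finset.sum_congr rfl fun m _ => ?_
    rw [smul_sub, smul_mul_assoc, mul_smul_comm]
  have hsplit : (T ^ ℓ * P - P * T ^ ℓ) i₀ j₀ = (ℓ : ℚ_[ℓ]) * (N * P - P * N) i₀ j₀ +
      ∑ m ∈ range (ℓ - 1), (ℓ.choose (m + 2)) • (N ^ (m + 2) * P - P * N ^ (m + 2)) i₀ j₀ := by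
    rw [hexp]
    have h2 : ℓ + 1 = (ℓ - 1) + 1 + 1 := by
      have := (Fact.out : ℓ.Prime).pos
      omega
    rw [h2, Finset.sum_range_succ', Finset.sum_range_succ']
    simp only [Matrix.add_apply, Matrix.sum_apply, Matrix.smul_apply]
    simp only [zero_add, pow_one, pow_zero, one_mul, mul_one, sub_self, Matrix.zero_apply,
      smul_zero, add_zero, Nat.choose_one_right, nsmul_eq_mul]
    rw [add_comm]
  have hR : ‖∑ m ∈ range (ℓ - 1),
      (ℓ.choose (m + 2)) • (N ^ (m + 2) * P - P * N ^ (m + 2)) i₀ j₀‖ ≤ q * r₁ := by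
    refine IsUltrametricDist.norm_sum_le_of_forall_le_of_nonneg (by positivity) fun m _ => ?_
    refine (norm_nsmul_le _ _).trans ?_
    refine (comm_pow hq0.le hr₁0.le hNb hD (m + 1) i₀ j₀).trans ?_
    refine mul_le_mul_of_nonneg_right ?_ hr₁0.le
    rw [pow_succ]
    calc q ^ m * q ≤ 1 * q := mul_le_mul_of_nonneg_right (pow_le_one₀ hq0.le hq1') hq0.le
      _ = q := one_mul _
  have hL : ‖(ℓ : ℚ_[ℓ]) * (N * P - P * N) i₀ j₀‖ = (ℓ : ℝ)⁻¹ * r₁ := by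
    rw [norm_mul, Padic.norm_p, ← hD0]
  have hlt : ‖∑ m ∈ range (ℓ - 1),
      (ℓ.choose (m + 2)) • (N ^ (m + 2) * P - P * N ^ (m + 2)) i₀ j₀‖ <
      ‖(ℓ : ℚ_[ℓ]) * (N * P - P * N) i₀ j₀‖ := by
    rw [hL]
    exact hR.trans_lt (mul_lt_mul_of_pos_right hq1 hr₁0)
  have hfin : ‖(T ^ ℓ * P - P * T ^ ℓ) i₀ j₀‖ = (ℓ : ℝ)⁻¹ * r₁ := by
    rw [hsplit, IsUltrametricDist.norm_add_eq_max_of_norm_ne_norm hlt.ne', max_eq_left hlt.le, hL]
  have h3 := hr i₀ j₀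
  rw [hfin] at h3
  have h4 := le_of_mul_le_mul_left h3 (inv_pos.2 hℓ)
  linarith

end Pool.Agent.W806.MT
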